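import Pool.Agent.N575.WK.EqMain

/-!
# The equality problem in `M(n)` is undecidable for `n ≥ 3`
-/

namespace Pool.Agent.Results.MP_79b5eb_lc.MatrixVarieties

open Pool.Agent.N575.WK

/-- Over every field of characteristic `0` and for every `n ≥ 3`, the equality problem in the
variety generated by the algebra of `n × n` matrices is undecidable; moreover some algebra finitely
presented in this variety has an undecidable word problem. -/
theorem result (K : Type) [Field K] [CharZero K] (n : ℕ) (hn : 3 ≤ n) :
    ¬ EqualityDecidable K (MatIdent K n) ∧ SomeUndecidable K (MatIdent K n) :=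
  ⟨not_equality (undec_mat hn), undec_mat hn⟩

end Pool.Agent.Results.MP_79b5eb_lc.MatrixVarieties
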