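import Pool.Agent.N575.WK.EqMain

/-!
# The equality problem in `S(n)` is undecidable for `n ≥ 6`
-/

namespace Pool.Agent.Results.MP_79b5eb_lc.StandardVarieties

open Pool.Agent.N575.WK

/-- Over every field of characteristic `0` and for every `n ≥ 6`, the equality problem in the
variety defined by the standard identity of degree `n` is undecidable; moreover some algebra
finitely presented in this variety has an undecidable word problem. -/
theorem result (K : Type) [Field K] [CharZero K] (n : ℕ) (hn : 6 ≤ n) :
    ¬ EqualityDecidable K {stdPoly K n} ∧ SomeUndecidable K {stdPoly K n} :=
  ⟨not_equality (undec_std hn), undec_std hn⟩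

end Pool.Agent.Results.MP_79b5eb_lc.StandardVarieties
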